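import Pool.Agent.helper83.GR.Spec

set_option autoImplicit false

namespace Pool.Agent.GR

open Pool.Agent.helper58.DC Pool.Agent.DI

open Classical in
theorem MA1_fm {ι R : Type} [Fintype ι] [AddCommMonoid R] (S : Set ι) (f : ι → R) :
    ∑ᶠ x ∈ S, f x = ∑ x, if x ∈ S then f x else 0 := by
  rw [finsum_eq_sum_of_fintype]
  refine Finset.sum_congr rfl fun x _ => ?_
  by_cases hx : x ∈ S
  · simp [hx]
  · simp [hx]

theorem MA1_rad_ne {G : Type} [Group G] {p : ℕ} {C : Finset (Subgroup G)} (h : IsRadical p C) :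
    C.Nonempty := by
  obtain ⟨P₀, hP, _⟩ := h.radical
  exact ⟨P₀, hP⟩

theorem MA1_nz_range {G E A : Type} [Group G] [Group E] [Group A] (X : Extension G E A) :
    nz X.inc.range = ⊤ := by
  rw [eq_top_iff]
  intro e _
  show e ∈ Subgroup.normalizer ((X.inc.range : Subgroup E) : Set E)
  rw [Subgroup.mem_normalizer_iff]
  intro h
  constructor
  · rintro ⟨g, rfl⟩
    exact ⟨X.act e g, X.act_spec e g⟩
  · rintro ⟨g, hg⟩
    refine ⟨X.act e⁻¹ g, ?_⟩
    rw [X.act_spec, hg]
    group

theorem MA1_czcomap {G E A : Type} [Group G] [Group E] [Group A] (X : Extension G E A)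
    (y : G) (N : Subgroup E) :
    (Subgroup.centralizer {X.inc y} ⊓ N).comap X.inc = Cz (N.comap X.inc) y := by
  ext g
  simp only [Cz, Subgroup.mem_comap, Subgroup.mem_inf, Subgroup.mem_centralizer_singleton_iff]
  constructor
  · rintro ⟨h1, h2⟩
    refine ⟨h2, X.inc_injective ?_⟩
    rw [map_mul, map_mul]
    exact h1
  · rintro ⟨h1, h2⟩
    refine ⟨?_, h1⟩
    rw [← map_mul, ← map_mul, h2]

theorem MA1_cz_one {G : Type} [Group G] (H : Subgroup G) : Cz H (1 : G) = H := by
  ext g
  simp [Cz, Subgroup.mem_centralizer_singleton_iff]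

theorem MA1_pzp {G : Type} [Group G] {p : ℕ} {y : G} (h : PEl p y) :
    IsPGroup p (Subgroup.zpowers y) := by
  obtain ⟨k, hk⟩ := h
  rintro ⟨g, hg⟩
  obtain ⟨n, rfl⟩ := Subgroup.mem_zpowers_iff.1 hg
  refine ⟨k, ?_⟩
  apply Subtype.ext
  show (y ^ n) ^ p ^ k = 1
  rw [← zpow_natCast, ← zpow_mul, mul_comm, zpow_mul, zpow_natCast, hk, one_zpow]

theorem MA1_nzzp {Γ : Type} [Group Γ] [Finite Γ] (e w : Γ) (h : e * w * e⁻¹ ∈ Subgroup.zpowers w) :
    e ∈ nz (Subgroup.zpowers w) := by
  show e ∈ Subgroup.normalizer ((Subgroup.zpowers w : Subgroup Γ) : Set Γ)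
  have hle : (Subgroup.zpowers w).map (MulAut.conj e).toMonoidHom ≤ Subgroup.zpowers w := by
    rw [MonoidHom.map_zpowers, Subgroup.zpowers_le]
    exact h
  have heq : (Subgroup.zpowers w).map (MulAut.conj e).toMonoidHom = Subgroup.zpowers w := by
    apply Subgroup.eq_of_le_of_card_ge hle
    rw [Subgroup.card_map_of_injective (MulAut.conj e).injective]
  rw [Subgroup.mem_normalizer_iff]
  intro x
  constructor
  · intro hx
    have : e * x * e⁻¹ ∈ (Subgroup.zpowers w).map (MulAut.conj e).toMonoidHom := ⟨x, hx, rfl⟩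
    exact hle this
  · intro hx
    have hx' : e * x * e⁻¹ ∈ Subgroup.zpowers w := hx
    rw [← heq] at hx'
    obtain ⟨z, hz, hz'⟩ := hx'
    have : z = x := by
      have h2 : e * z * e⁻¹ = e * x * e⁻¹ := hz'
      exact mul_left_cancel (mul_right_cancel h2)
    rw [← this]
    exact hz

theorem MA1 (hCLA : CLA_stmt) (hGCJ : GCJ_stmt) (hGCN : GCN_stmt) (hSEC : SEC_stmt)
    (hGLS : GLS_stmt) (hQPR : QPR_stmt) (hA7 : A7_stmt) (hA8 : A8_stmt) (hA14 : A14_stmt) :
    MA1_stmt := by
  classical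
  intro p M hM G E A _ _ _ _ _ X hOp χ hχ a σ hσ
  have : Fact p.Prime := ⟨hM.1⟩
  let _ : Fintype G := Fintype.ofFinite G
  let _ : Fintype E := Fintype.ofFinite E
  let _ : Fintype (Subgroup E) := Fintype.ofFinite _
  let _ : Fintype (Finset (Subgroup E)) := Fintype.ofFinite _
  obtain ⟨s, hs⟩ := (hGLS p (Nat.card G) σ hM.1 Nat.card_pos).2 hσ
  -- step 1
  have h1 := hCLA G p (fun C => (galCount X M χ a σ C : ℤ)) (by
    intro g C _
    have := hGCJ G E A X M χ hχ a σ g C
    rw [this])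
  have h2 : (Nat.card G : ℤ) * galSum X p M χ a σ =
      ∑ᶠ C ∈ {C : Finset (Subgroup G) | IsRadical p C},
        (-1) ^ (C.card + 1) * gE X M χ a σ (⊤ ⊓ nrm (cmap X.inc C)) := by
    rw [show galSum X p M χ a σ = ∑ᶠ c : Quot (chainRel (G := G) p),
      (-1) ^ (c.out.1.card - 1) * ((fun C => (galCount X M χ a σ C : ℤ)) c.out.1) from rfl, h1]
    refine finsum_mem_congr rfl fun C hC => ?_
    have hC' : IsRadical p C := hC
    have := hGCN G E A X M χ a σ C hC'.chain (MA1_rad_ne hC')
    rw [this, top_inf_eq]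
  have h3 : (Nat.card G : ℤ) * galSum X p M χ a σ = cSum p X.inc.range ⊥ ⊤ (gE X M χ a σ) := by
    rw [h2, hA8 G E p X.inc X.inc_injective ⊤ (gE X M χ a σ)]
    refine hA7 E p X.inc.range ⊥ ⊤ _ ?_ ?_
    · exact ((hA14 G E p X.inc X.inc_injective).2.1).1 hOp
    · rw [MA1_nz_range]
      exact le_top
  -- cast
  have h4 : (Nat.card G : ℂ) * galSum X p M χ a σ =
      ∑ C : Finset (Subgroup E), if PCh p X.inc.range ⊥ C then
        (-1) ^ (C.card + 1) * ((gE X M χ a σ (nrm C) : ℤ) : ℂ) else 0 := by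
    have h4' := congrArg (fun n : ℤ => (n : ℂ)) h3
    rw [cSum, MA1_fm] at h4'
    push_cast at h4'
    rw [h4']
    refine Finset.sum_congr rfl fun C _ => ?_
    by_cases hC : PCh p X.inc.range ⊥ C
    · rw [if_pos (by exact hC), if_pos hC, top_inf_eq]
    · rw [if_neg (by exact hC), if_neg hC]
  have h5 : ∀ N : Subgroup E, ((gE X M χ a σ N : ℤ) : ℂ) =
      ∑ e : E, ∑ y : G, if (e ∈ N ∧ X.proj e = a) ∧
        (y ∈ N.comap X.inc ∧ PEl p y ∧ ((X.act e)⁻¹ y) ^ s = y) then
        tau p M χ (Cz (N.comap X.inc) y) (X.act e) else 0 := by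
    intro N
    have h := hSEC p M hM G E A X χ a σ s hs N
    have h' : ((gE X M χ a σ N : ℤ) : ℂ) =
        ∑ᶠ e ∈ {e : E | e ∈ N ∧ X.proj e = a}, (cnt M χ (N.comap X.inc) (X.act e) σ : ℂ) := by
      rw [gE, MA1_fm, MA1_fm]
      push_cast
      refine Finset.sum_congr rfl fun e _ => ?_
      split_ifs <;> rfl
    rw [h', h, MA1_fm]
    refine Finset.sum_congr rfl fun e _ => ?_
    by_cases he : e ∈ N ∧ X.proj e = a
    · rw [if_pos (by exact he), MA1_fm]
      refine Finset.sum_congr rfl fun y _ => ?_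
      by_cases hy : (y ∈ N.comap X.inc ∧ PEl p y ∧ ((X.act e)⁻¹ y) ^ s = y)
      · rw [if_pos (by exact hy), if_pos ⟨he, hy⟩]
      · rw [if_neg (by exact hy), if_neg (fun h => hy h.2)]
    · rw [if_neg (by exact he)]
      symm
      apply Finset.sum_eq_zero
      intro y _
      rw [if_neg (fun h => he h.1)]
  have h6 : (Nat.card G : ℂ) * galSum X p M χ a σ =
      ∑ e : E, ∑ y : G, ∑ C : Finset (Subgroup E),
        if PCh p X.inc.range ⊥ C ∧ (e ∈ nrm C ∧ X.proj e = a) ∧
        (y ∈ (nrm C).comap X.inc ∧ PEl p y ∧ ((X.act e)⁻¹ y) ^ s = y) then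
        (-1) ^ (C.card + 1) * tau p M χ (Cz ((nrm C).comap X.inc) y) (X.act e) else 0 := by
    rw [h4]
    have : ∀ C : Finset (Subgroup E), (if PCh p X.inc.range ⊥ C then
        (-1) ^ (C.card + 1) * ((gE X M χ a σ (nrm C) : ℤ) : ℂ) else 0) =
        ∑ e : E, ∑ y : G,
        if PCh p X.inc.range ⊥ C ∧ (e ∈ nrm C ∧ X.proj e = a) ∧
        (y ∈ (nrm C).comap X.inc ∧ PEl p y ∧ ((X.act e)⁻¹ y) ^ s = y) then
        (-1) ^ (C.card + 1) * tau p M χ (Cz ((nrm C).comap X.inc) y) (X.act e) else 0 := by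
      intro C
      by_cases hC : PCh p X.inc.range ⊥ C
      · rw [if_pos hC, h5, Finset.mul_sum]
        refine Finset.sum_congr rfl fun e _ => ?_
        rw [Finset.mul_sum]
        refine Finset.sum_congr rfl fun y _ => ?_
        by_cases hh : (e ∈ nrm C ∧ X.proj e = a) ∧
          (y ∈ (nrm C).comap X.inc ∧ PEl p y ∧ ((X.act e)⁻¹ y) ^ s = y)
        · rw [if_pos hh, if_pos ⟨hC, hh⟩]
        · rw [if_neg hh, if_neg (fun h => hh h.2), mul_zero]
      · rw [if_neg hC]
        symm
        apply Finset.sum_eq_zero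
        intro e _
        apply Finset.sum_eq_zero
        intro y _
        rw [if_neg (fun h => hC h.1)]
    simp only [this]
    rw [Finset.sum_comm]
    refine Finset.sum_congr rfl fun e _ => ?_
    rw [Finset.sum_comm]
  rw [h6, MA1_fm]
  refine Finset.sum_congr rfl fun e _ => ?_
  by_cases he : X.proj e = a
  · rw [if_pos (by exact he)]
    rw [Finset.sum_eq_single (1 : G)]
    · rw [MA1_fm]
      refine Finset.sum_congr rfl fun C _ => ?_
      by_cases hC : PCh p X.inc.range ⊥ C ∧ e ∈ nrm C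
      · have hL : PCh p X.inc.range ⊥ C ∧ (e ∈ nrm C ∧ X.proj e = a) ∧
            ((1 : G) ∈ (nrm C).comap X.inc ∧ PEl p (1 : G) ∧ ((X.act e)⁻¹ 1) ^ s = 1) :=
          ⟨hC.1, ⟨hC.2, he⟩, Subgroup.one_mem _, ⟨0, by simp⟩, by simp⟩
        rw [if_pos hL, if_pos (by exact hC), MA1_cz_one]
      · have hL : ¬ (PCh p X.inc.range ⊥ C ∧ (e ∈ nrm C ∧ X.proj e = a) ∧
            ((1 : G) ∈ (nrm C).comap X.inc ∧ PEl p (1 : G) ∧ ((X.act e)⁻¹ 1) ^ s = 1)) :=
          fun h => hC ⟨h.1, h.2.1.1⟩
        rw [if_neg hL, if_neg (by exact hC)]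
    · intro y _ hy
      by_cases hy2 : PEl p y ∧ ((X.act e)⁻¹ y) ^ s = y
      · have hq := hQPR E p X.inc.range (Subgroup.zpowers (X.inc y))
          (Subgroup.centralizer {X.inc y}) e (fun K => tau p M χ (K.comap X.inc) (X.act e))
          (MA1_pzp (by
            obtain ⟨k, hk⟩ := hy2.1
            exact ⟨k, by rw [← map_pow, hk, map_one]⟩))
          (by
            rw [Subgroup.zpowers_le]
            exact ⟨y, rfl⟩)
          (by
            rw [Ne, Subgroup.zpowers_eq_bot]
            intro h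
            exact hy (X.inc_injective (by rw [h, map_one])))
          (by
            rw [Subgroup.zpowers_le, Subgroup.mem_centralizer_singleton_iff])
          (by
            apply MA1_nzzp
            have h7 : X.act e y = y ^ s := by
              have h8 := congrArg (X.act e) hy2.2
              rw [map_pow] at h8
              rw [← h8]
              congr 1
              exact MulEquiv.apply_symm_apply (X.act e) y
            rw [← X.act_spec, h7, map_pow]
            exact Subgroup.npow_mem_zpowers _ _)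
          (by
            intro g hg
            apply MA1_nzzp
            rw [Subgroup.mem_centralizer_singleton_iff] at hg
            rw [hg, mul_inv_cancel_right]
            exact Subgroup.mem_zpowers _)
        rw [MA1_fm] at hq
        refine Eq.trans (Finset.sum_congr rfl fun C _ => ?_) hq
        by_cases hC : PCh p X.inc.range ⊥ C ∧ e ∈ nrm C ∧ Subgroup.zpowers (X.inc y) ≤ nrm C
        · have hL : PCh p X.inc.range ⊥ C ∧ (e ∈ nrm C ∧ X.proj e = a) ∧
              (y ∈ (nrm C).comap X.inc ∧ PEl p y ∧ ((X.act e)⁻¹ y) ^ s = y) := by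
            refine ⟨hC.1, ⟨hC.2.1, he⟩, ?_, hy2⟩
            have h9 := hC.2.2
            rw [Subgroup.zpowers_le] at h9
            exact h9
          rw [if_pos hL, if_pos (by exact hC), MA1_czcomap]
        · have hL : ¬ (PCh p X.inc.range ⊥ C ∧ (e ∈ nrm C ∧ X.proj e = a) ∧
              (y ∈ (nrm C).comap X.inc ∧ PEl p y ∧ ((X.act e)⁻¹ y) ^ s = y)) := by
            intro h
            refine hC ⟨h.1, h.2.1.1, ?_⟩
            rw [Subgroup.zpowers_le]
            exact h.2.2.1
          rw [if_neg hL, if_neg (by exact hC)]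
      · apply Finset.sum_eq_zero
        intro C _
        rw [if_neg (fun h => hy2 h.2.2.2)]
    · intro h
      exact absurd (Finset.mem_univ _) h
  · rw [if_neg (by exact he)]
    apply Finset.sum_eq_zero
    intro y _
    apply Finset.sum_eq_zero
    intro C _
    rw [if_neg (fun h => he h.2.1.2)]

end Pool.Agent.GR
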