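import Pool.Agent.helper88.GR.Spec

set_option autoImplicit false

open Complex Metric Set Filter Topology MeasureTheory
open MPS (om)
open PPS (pre TT fd)
open XPS (Df er dens tau)
open Pool.Agent.helper16.Multibrot

noncomputable section

namespace GR

theorem SEP (hN : V3.NSU_stmt) : SEP_stmt := by
  intro ι s ρ p hρ hp hsep
  have hsum : ∑ i ∈ s, 1 / ‖p i‖ ^ 3 ≤ 50 / (2 ^ 2 * 2) :=
    hN ι p s 2 2 two_pos le_rfl hsep hp
  refine ⟨-∑ i ∈ s, ρ i / p i, -∑ i ∈ s, ρ i / p i ^ 2, ?_⟩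
  intro x hx
  have hp0 : ∀ i ∈ s, p i ≠ 0 := by
    intro i hi h
    have := hp i hi
    rw [h, norm_zero] at this
    linarith
  have hxp : ∀ i ∈ s, ‖p i‖ / 2 ≤ ‖x - p i‖ := by
    intro i hi
    have h1 := norm_sub_norm_le (p i) x
    rw [norm_sub_rev] at h1
    have h2 := hp i hi
    linarith
  have hxp0 : ∀ i ∈ s, x - p i ≠ 0 := by
    intro i hi h
    have h1 := hxp i hi
    rw [h, norm_zero] at h1
    have h2 := hp i hi
    linarith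
  have e1 : ∑ i ∈ s, ρ i / (x - p i) - -∑ i ∈ s, ρ i / p i - (-∑ i ∈ s, ρ i / p i ^ 2) * x =
      ∑ i ∈ s, ρ i * x ^ 2 / (p i ^ 2 * (x - p i)) := by
    rw [sub_neg_eq_add, neg_mul, sub_neg_eq_add, Finset.sum_mul, ← Finset.sum_add_distrib,
      ← Finset.sum_add_distrib]
    refine Finset.sum_congr rfl fun i hi => ?_
    have h1 := hp0 i hi
    have h2 := hxp0 i hi
    field_simp
    ring
  rw [e1]
  have hterm : ∀ i ∈ s, ‖ρ i * x ^ 2 / (p i ^ 2 * (x - p i))‖ ≤ 4 * ‖x‖ ^ 2 * (1 / ‖p i‖ ^ 3) := by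
    intro i hi
    have h0 : 0 < ‖p i‖ := by linarith [hp i hi]
    rw [norm_div, norm_mul, norm_mul, norm_pow, norm_pow, mul_one_div]
    have h3 : ‖p i‖ ^ 3 / 2 ≤ ‖p i‖ ^ 2 * ‖x - p i‖ := by
      calc ‖p i‖ ^ 3 / 2 = ‖p i‖ ^ 2 * (‖p i‖ / 2) := by ring
        _ ≤ ‖p i‖ ^ 2 * ‖x - p i‖ := mul_le_mul_of_nonneg_left (hxp i hi) (by positivity)
    calc ‖ρ i‖ * ‖x‖ ^ 2 / (‖p i‖ ^ 2 * ‖x - p i‖) ≤ 2 * ‖x‖ ^ 2 / (‖p i‖ ^ 3 / 2) :=
          div_le_div₀ (by positivity) (mul_le_mul_of_nonneg_right (hρ i hi) (by positivity))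
            (by positivity) h3
      _ = 4 * ‖x‖ ^ 2 / ‖p i‖ ^ 3 := by
          field_simp
          ring
  refine (norm_sum_le _ _).trans ((Finset.sum_le_sum hterm).trans ?_)
  rw [← Finset.mul_sum]
  calc 4 * ‖x‖ ^ 2 * ∑ i ∈ s, 1 / ‖p i‖ ^ 3 ≤ 4 * ‖x‖ ^ 2 * (50 / (2 ^ 2 * 2)) :=
        mul_le_mul_of_nonneg_left hsum (by positivity)
    _ ≤ 100 * ‖x‖ ^ 2 := by nlinarith [sq_nonneg ‖x‖]

end GR
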